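import Mathlib
import Pool.Agent.H269.SV.Stm

/-!
`S_LEVI`: Levi form formulas.
-/

set_option autoImplicit false

open MeasureTheory Filter Topology Set
open scoped ContDiff Matrix

noncomputable section

namespace Pool.Agent.H155.SV

open H712MA (E2)
open Pool.Agent.H269.SV

lemma two_le_inf : (2 : WithTop ℕ∞) ≤ ∞ := by
  have h : ((2 : ℕ∞) : WithTop ℕ∞) ≤ ((⊤ : ℕ∞) : WithTop ℕ∞) := WithTop.coe_le_coe.2 le_top
  exact h

/-- (1) composition -/
theorem levi_comp {n : ℕ} {f : E2 n → ℝ} {θ : ℝ → ℝ} {z : E2 n} (v : E2 n) (hf : ContDiffAt ℝ ∞ f z)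
    (hθ : ContDiffAt ℝ ∞ θ (f z)) :
    levi (fun y => θ (f y)) z v = deriv θ (f z) * levi f z v +
      deriv (deriv θ) (f z) * ((fderiv ℝ f z v) ^ 2 + (fderiv ℝ f z (JJ n v)) ^ 2) := by
  have hf2 : ContDiffAt ℝ 2 f z := hf.of_le (two_le_inf)
  have hθ2 : ContDiffAt ℝ 2 θ (f z) := hθ.of_le (two_le_inf)
  have hfd : ∀ᶠ y in 𝓝 z, DifferentiableAt ℝ f y := by
    filter_upwards [hf2.eventually (by simp)] with y hy
    exact hy.differentiableAt (by norm_num)
  have hθd : ∀ᶠ y in 𝓝 z, DifferentiableAt ℝ θ (f y) := by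
    have h1 : ∀ᶠ x in 𝓝 (f z), DifferentiableAt ℝ θ x := by
      filter_upwards [hθ2.eventually (by simp)] with y hy
      exact hy.differentiableAt (by norm_num)
    exact hf2.continuousAt.eventually h1
  have h1 : fderiv ℝ (fun y => θ (f y)) =ᶠ[𝓝 z] fun y => deriv θ (f y) • fderiv ℝ f y := by
    filter_upwards [hfd, hθd] with y h2 h3
    exact (h3.hasDerivAt.comp_hasFDerivAt y h2.hasFDerivAt).fderiv
  have h2 : HasFDerivAt (fderiv ℝ f) (fderiv ℝ (fderiv ℝ f) z) z :=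
    ((hf2.fderiv_right (m := 1) (by norm_num)).differentiableAt (by norm_num)).hasFDerivAt
  have h3 : HasDerivAt (deriv θ) (deriv (deriv θ) (f z)) (f z) := by
    have : ContDiffAt ℝ 1 (deriv θ) (f z) := by
      have h4 := hθ2.fderiv_right (m := 1) (by norm_num)
      have h5 : deriv θ = fun x => fderiv ℝ θ x 1 := by
        funext x
        rw [fderiv_apply_one_eq_deriv]
      rw [h5]
      exact h4.clm_apply contDiffAt_const
    exact (this.differentiableAt (by norm_num)).hasDerivAt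
  have h4 : HasFDerivAt (fun y => deriv θ (f y)) (deriv (deriv θ) (f z) • fderiv ℝ f z) z :=
    h3.comp_hasFDerivAt z hfd.self_of_nhds.hasFDerivAt
  have h5 := h4.smul h2
  have h6 : ∀ u : E2 n, fderiv ℝ (fderiv ℝ fun y => θ (f y)) z u u =
      deriv θ (f z) * fderiv ℝ (fderiv ℝ f) z u u + deriv (deriv θ) (f z) * (fderiv ℝ f z u) ^ 2 := by
    intro u
    rw [h1.fderiv_eq]
    have h7 : fderiv ℝ (fun y => deriv θ (f y) • fderiv ℝ f y) z = _ := h5.fderiv
    rw [h7]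
    simp [ContinuousLinearMap.smulRight_apply]
    ring
  unfold levi
  rw [h6, h6]
  ring

/-- evaluation of the second derivative -/
lemma D2_eval {n : ℕ} {F : Type*} [NormedAddCommGroup F] [NormedSpace ℝ F] {f : E2 n → F} {z : E2 n}
    (hf : ContDiffAt ℝ 2 f z) (w : E2 n) :
    HasFDerivAt (fun y => fderiv ℝ f y w)
      ((ContinuousLinearMap.apply ℝ F w).comp (fderiv ℝ (fderiv ℝ f) z)) z := by
  have h2 : HasFDerivAt (fderiv ℝ f) (fderiv ℝ (fderiv ℝ f) z) z :=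
    ((hf.fderiv_right (m := 1) (by norm_num)).differentiableAt (by norm_num)).hasFDerivAt
  exact (ContinuousLinearMap.apply ℝ F w).hasFDerivAt.comp z h2

/-- (2) sums of squares of holomorphic functions -/
theorem levi_sq {n : ℕ} {ι : Type} [Fintype ι] {f : E2 n → ℝ} {h : ι → E2 n → ℂ} {U : Set (E2 n)}
    {z : E2 n} (v : E2 n) (hU : IsOpen U) (hz : z ∈ U) (hf : ∀ y ∈ U, f y = ∑ j, ‖h j y‖ ^ 2)
    (hs : ∀ j, ContDiffOn ℝ ∞ (h j) U)
    (hh : ∀ j, ∀ y ∈ U, ∀ v, fderiv ℝ (h j) y (JJ n v) = Complex.I * fderiv ℝ (h j) y v) :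
    levi f z v = 4 * ∑ j, ‖fderiv ℝ (h j) z v‖ ^ 2 ∧
      (fderiv ℝ f z v) ^ 2 + (fderiv ℝ f z (JJ n v)) ^ 2 ≤ f z * levi f z v := by
  have hUz : U ∈ 𝓝 z := hU.mem_nhds hz
  have hs2 : ∀ j, ∀ y ∈ U, ContDiffAt ℝ 2 (h j) y := fun j y hy =>
    ((hs j).contDiffAt (hU.mem_nhds hy)).of_le (two_le_inf)
  have hd : ∀ j, ∀ y ∈ U, HasFDerivAt (h j) (fderiv ℝ (h j) y) y := fun j y hy =>
    ((hs2 j y hy).differentiableAt (by norm_num)).hasFDerivAt
  have hfe : f =ᶠ[𝓝 z] fun y => ∑ j, ‖h j y‖ ^ 2 := by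
    filter_upwards [hUz] with y hy
    exact hf y hy
  have hfc : ContDiffAt ℝ 2 f z := by
    apply ContDiffAt.congr_of_eventuallyEq _ hfe
    apply ContDiffAt.sum
    intro j _
    exact (hs2 j z hz).norm_sq ℝ
  -- first derivative
  have hD1 : ∀ y ∈ U, ∀ u, fderiv ℝ f y u = ∑ j, 2 * inner ℝ (h j y) (fderiv ℝ (h j) y u) := by
    intro y hy u
    have h1 : f =ᶠ[𝓝 y] fun y => ∑ j, ‖h j y‖ ^ 2 := by
      filter_upwards [hU.mem_nhds hy] with y hy
      exact hf y hy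
    rw [h1.fderiv_eq]
    have h2 : HasFDerivAt (fun y => ∑ j, ‖h j y‖ ^ 2)
        (∑ j, 2 • (innerSL ℝ (h j y)).comp (fderiv ℝ (h j) y)) y := by
      apply HasFDerivAt.fun_sum
      intro j _
      exact (hd j y hy).norm_sq
    rw [h2.fderiv]
    simp only [sum_apply, smul_apply, ContinuousLinearMap.comp_apply, innerSL_apply_apply, nsmul_eq_mul]
    norm_num
  -- second derivative
  have hD2 : ∀ u, fderiv ℝ (fderiv ℝ f) z u u =
      ∑ j, (2 * ‖fderiv ℝ (h j) z u‖ ^ 2 + 2 * inner ℝ (h j z) (fderiv ℝ (fderiv ℝ (h j)) z u u)) := by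
    intro u
    have h1 := D2_eval hfc u
    have h2 : (fun y => fderiv ℝ f y u) =ᶠ[𝓝 z]
        fun y => ∑ j, 2 * inner ℝ (h j y) (fderiv ℝ (h j) y u) := by
      filter_upwards [hUz] with y hy
      exact hD1 y hy u
    have h3 : HasFDerivAt (fun y => ∑ j, 2 * inner ℝ (h j y) (fderiv ℝ (h j) y u))
        (∑ j, (2 : ℝ) • ((fderivInnerCLM ℝ (h j z, fderiv ℝ (h j) z u)).comp
          ((fderiv ℝ (h j) z).prod ((ContinuousLinearMap.apply ℝ ℂ u).comp
            (fderiv ℝ (fderiv ℝ (h j)) z))))) z := by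
      apply HasFDerivAt.fun_sum
      intro j _
      exact ((hd j z hz).inner ℝ (D2_eval (hs2 j z hz) u)).const_mul 2
    have h4 : fderiv ℝ (fun y => fderiv ℝ f y u) z = _ := h1.fderiv
    have h5 : fderiv ℝ (fun y => fderiv ℝ f y u) z = _ := h2.fderiv_eq.trans h3.fderiv
    have h6 := congrArg (fun A : E2 n →L[ℝ] ℝ => A u) (h4.symm.trans h5)
    simp only [ContinuousLinearMap.comp_apply, ContinuousLinearMap.apply_apply] at h6
    rw [h6]
    simp only [sum_apply, smul_apply, ContinuousLinearMap.comp_apply, ContinuousLinearMap.prod_apply, fderivInnerCLM_apply,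
      ContinuousLinearMap.apply_apply, smul_eq_mul, real_inner_self_eq_norm_sq]
    apply Finset.sum_congr rfl
    intro j _
    ring
  -- holomorphic functions are pluriharmonic
  have hD3 : ∀ j, fderiv ℝ (fderiv ℝ (h j)) z (JJ n v) (JJ n v) = -fderiv ℝ (fderiv ℝ (h j)) z v v := by
    intro j
    have h1 : ∀ u w, fderiv ℝ (fderiv ℝ (h j)) z u (JJ n w) =
        Complex.I * fderiv ℝ (fderiv ℝ (h j)) z u w := by
      intro u w
      have h2 := D2_eval (hs2 j z hz) (JJ n w)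
      have h3 := (D2_eval (hs2 j z hz) w).const_mul Complex.I
      have h4 : (fun y => fderiv ℝ (h j) y (JJ n w)) =ᶠ[𝓝 z]
          fun y => Complex.I * fderiv ℝ (h j) y w := by
        filter_upwards [hUz] with y hy
        exact hh j y hy w
      have h5 := h2.fderiv.symm.trans (h4.fderiv_eq.trans h3.fderiv)
      have h6 := congrArg (fun A : E2 n →L[ℝ] ℂ => A u) h5
      simpa using h6
    have hsymm : IsSymmSndFDerivAt ℝ (h j) z := (hs2 j z hz).isSymmSndFDerivAt (by simp)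
    rw [h1, hsymm.eq (JJ n v) v, h1, ← mul_assoc, Complex.I_mul_I, neg_one_mul]
  have hlev : levi f z v = 4 * ∑ j, ‖fderiv ℝ (h j) z v‖ ^ 2 := by
    unfold levi
    rw [hD2, hD2, ← Finset.sum_add_distrib, Finset.mul_sum]
    apply Finset.sum_congr rfl
    intro j _
    rw [hD3, hh j z hz, norm_mul, Complex.norm_I, one_mul, inner_neg_right]
    ring
  refine ⟨hlev, ?_⟩
  rw [hlev, hD1 z hz, hD1 z hz, hf z hz]
  -- Cauchy-Schwarz
  set S : ℂ := ∑ j, (starRingEnd ℂ) (h j z) * fderiv ℝ (h j) z v with hS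
  have e1 : ∑ j, 2 * inner ℝ (h j z) (fderiv ℝ (h j) z v) = 2 * S.re := by
    rw [hS, Complex.re_sum, Finset.mul_sum]
    apply Finset.sum_congr rfl
    intro j _
    rw [Complex.inner, mul_comm (starRingEnd ℂ (h j z))]
  have e2 : ∑ j, 2 * inner ℝ (h j z) (fderiv ℝ (h j) z (JJ n v)) = -(2 * S.im) := by
    rw [hS, Complex.im_sum, Finset.mul_sum, ← Finset.sum_neg_distrib]
    apply Finset.sum_congr rfl
    intro j _
    rw [Complex.inner, hh j z hz]
    simp [Complex.mul_re, Complex.mul_im]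
    ring
  have e3 : ‖S‖ ^ 2 ≤ (∑ j, ‖h j z‖ ^ 2) * ∑ j, ‖fderiv ℝ (h j) z v‖ ^ 2 := by
    have h1 : ‖S‖ ≤ ∑ j, ‖h j z‖ * ‖fderiv ℝ (h j) z v‖ := by
      rw [hS]
      refine (norm_sum_le _ _).trans (le_of_eq ?_)
      apply Finset.sum_congr rfl
      intro j _
      rw [norm_mul, Complex.norm_conj]
    exact (pow_le_pow_left₀ (norm_nonneg _) h1 2).trans (Finset.sum_mul_sq_le_sq_mul_sq _ _ _)
  rw [e1, e2]
  have e4 : (2 * S.re) ^ 2 + (-(2 * S.im)) ^ 2 = 4 * ‖S‖ ^ 2 := by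
    rw [← Complex.normSq_eq_norm_sq, Complex.normSq_apply]
    ring
  rw [e4]
  linarith

/-- coordinates of `ℂⁿ` -/
def co (n : ℕ) (i : Fin n) : E2 n →L[ℝ] ℂ :=
  Complex.ofRealCLM.comp ((ContinuousLinearMap.proj i).comp (ContinuousLinearMap.fst ℝ _ _)) +
    (Complex.I • Complex.ofRealCLM).comp
      ((ContinuousLinearMap.proj i).comp (ContinuousLinearMap.snd ℝ _ _))

lemma co_apply (n : ℕ) (i : Fin n) (z : E2 n) : co n i z = z.1 i + Complex.I * z.2 i := by
  simp [co]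

lemma nsq_eq {n : ℕ} (z : E2 n) : nsq z = ∑ i, ‖co n i z‖ ^ 2 := by
  unfold nsq
  apply Finset.sum_congr rfl
  intro i _
  rw [co_apply, ← Complex.normSq_eq_norm_sq, Complex.normSq_apply]
  simp
  ring

lemma nsq_nonneg {n : ℕ} (z : E2 n) : 0 ≤ nsq z := by
  rw [nsq_eq]
  positivity

lemma nsq_smooth (n : ℕ) : ContDiff ℝ ∞ (nsq : E2 n → ℝ) := by
  unfold nsq
  fun_prop

theorem LEVI : S_LEVI := by
  refine ⟨fun n f θ z v hf hθ => levi_comp v hf hθ,
    fun n ι _ f h U z v hU hz hf hs hh => levi_sq v hU hz hf hs hh, ?_⟩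
  intro n a δ c z v ha hδ
  have hnn := nsq_nonneg z
  have hs : 0 < nsq z + δ ^ 2 := by positivity
  have h1 := levi_sq (f := nsq) (h := fun i => (co n i : E2 n → ℂ)) (U := univ) (z := z) v isOpen_univ
    (mem_univ _) (fun y _ => nsq_eq y) (fun j => (co n j).contDiff.contDiffOn)
    (fun j y _ w => by
      rw [(co n j).fderiv, co_apply, co_apply]
      simp only [JJ_apply, Pi.neg_apply]
      push_cast
      linear_combination (-(w.2 j : ℂ)) * Complex.I_mul_I)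
  simp only [ContinuousLinearMap.fderiv, ← nsq_eq] at h1
  obtain ⟨h2, h3⟩ := h1
  have hθ : ContDiffAt ℝ ∞ (fun t : ℝ => a * Real.log (t + δ ^ 2) + c) (nsq z) := by
    have : ContDiffAt ℝ ∞ (fun t : ℝ => Real.log (t + δ ^ 2)) (nsq z) :=
      (contDiffAt_id.add contDiffAt_const).log hs.ne'
    exact (contDiffAt_const.mul this).add contDiffAt_const
  have h4 := levi_comp (θ := fun t : ℝ => a * Real.log (t + δ ^ 2) + c) v
    (nsq_smooth n).contDiffAt hθ
  rw [h4]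
  have hd1 : ∀ t : ℝ, 0 < t + δ ^ 2 →
      HasDerivAt (fun t : ℝ => a * Real.log (t + δ ^ 2) + c) (a / (t + δ ^ 2)) t := by
    intro t ht
    have := ((((hasDerivAt_id t).add_const (δ ^ 2)).log ht.ne').const_mul a).add_const c
    exact this.congr_deriv (by simp only [id]; ring)
  have hev : deriv (fun t : ℝ => a * Real.log (t + δ ^ 2) + c) =ᶠ[𝓝 (nsq z)]
      fun t => a / (t + δ ^ 2) := by
    have : ∀ᶠ t in 𝓝 (nsq z), 0 < t + δ ^ 2 := by
      have hc : ContinuousAt (fun t : ℝ => t + δ ^ 2) (nsq z) := by fun_prop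
      exact hc.eventually (lt_mem_nhds hs)
    filter_upwards [this] with t ht
    exact (hd1 t ht).deriv
  have hd2 : deriv (deriv fun t : ℝ => a * Real.log (t + δ ^ 2) + c) (nsq z) =
      -(a / (nsq z + δ ^ 2) ^ 2) := by
    rw [hev.deriv_eq]
    have : HasDerivAt (fun t : ℝ => a / (t + δ ^ 2)) (-(a / (nsq z + δ ^ 2) ^ 2)) (nsq z) := by
      have := (hasDerivAt_const (nsq z) a).div ((hasDerivAt_id (nsq z)).add_const (δ ^ 2)) hs.ne'
      exact this.congr_deriv (by simp only [id]; ring)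
    exact this.deriv
  rw [(hd1 _ hs).deriv, hd2, h2]
  rw [h2] at h3
  have h5 : a / (nsq z + δ ^ 2) ^ 2 * ((fderiv ℝ nsq z v) ^ 2 + (fderiv ℝ nsq z (JJ n v)) ^ 2) ≤
      a / (nsq z + δ ^ 2) ^ 2 * (nsq z * (4 * nsq v)) := mul_le_mul_of_nonneg_left h3 (by positivity)
  have h6 : 4 * a * δ ^ 2 * nsq v / (nsq z + δ ^ 2) ^ 2 =
      a / (nsq z + δ ^ 2) * (4 * nsq v) - a / (nsq z + δ ^ 2) ^ 2 * (nsq z * (4 * nsq v)) := by
    field_simp
    ring
  rw [h6]
  linarith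

end Pool.Agent.H155.SV
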